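import Mathlib

set_option autoImplicit false

open Filter Topology Set
open scoped ENNReal

namespace Pool.Agent.Results.MP_810de6_an.LInftyMBasis

/-- The family `x` is an extended M-basis of `E` with associated functionals `f`: the system
`(x i, f i)` is biorthogonal, the linear span of the `x i` is dense, and the `f i` are total.
The index set is arbitrary. -/
structure IsExtendedMBasis (𝕜 : Type) [RCLike 𝕜] {E I : Type} [NormedAddCommGroup E]
    [NormedSpace 𝕜 E] (x : I → E) (f : I → StrongDual 𝕜 E) : Prop where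
  diag : ∀ i, f i (x i) = 1
  offdiag : ∀ i j, i ≠ j → f i (x j) = 0
  dense : (Submodule.span 𝕜 (Set.range x)).topologicalClosure = ⊤
  total : ∀ v : E, (∀ i, f i v = 0) → v = 0

section functional

variable {𝕜 : Type} [RCLike 𝕜] {Γ : Type}

theorem hasSum_norm (a : lp (fun _ : Γ => 𝕜) 1) : HasSum (fun i => ‖a i‖) ‖a‖ := by
  have h1 : Summable (fun i => ‖a i‖) := by
    simpa using (lp.memℓp a).summable (by simp)
  have h2 : ‖a‖ = ∑' i, ‖a i‖ := by
    rw [lp.norm_eq_tsum_rpow (by simp)]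
    simp
  rw [h2]
  exact h1.hasSum

/-- The functional on `ℓ¹(Γ)` given by a bounded function. -/
noncomputable def pairing (c : Γ → 𝕜) (C : ℝ) (hC : ∀ i, ‖c i‖ ≤ C) :
    StrongDual 𝕜 (lp (fun _ : Γ => 𝕜) 1) :=
  have hb : ∀ (a : lp (fun _ : Γ => 𝕜) 1) (i : Γ), ‖c i * a i‖ ≤ C * ‖a i‖ := fun a i => by
    rw [norm_mul]
    exact mul_le_mul_of_nonneg_right (hC i) (norm_nonneg _)
  have hsum : ∀ a : lp (fun _ : Γ => 𝕜) 1, Summable (fun i => c i * a i) := fun a =>
    Summable.of_norm_bounded ((hasSum_norm a).mul_left C).summable (hb a)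
  LinearMap.mkContinuous
    { toFun := fun a => ∑' i, c i * a i
      map_add' := fun a b => by
        rw [← (hsum a).tsum_add (hsum b)]
        refine tsum_congr fun i => ?_
        rw [← mul_add]; rfl
      map_smul' := fun r a => by
        rw [RingHom.id_apply, ← tsum_const_smul'']
        refine tsum_congr fun i => ?_
        rw [smul_eq_mul, mul_left_comm]; rfl } C
    fun a => tsum_of_norm_bounded ((hasSum_norm a).mul_left C) (hb a)

theorem pairing_apply (c : Γ → 𝕜) (C : ℝ) (hC : ∀ i, ‖c i‖ ≤ C) (a : lp (fun _ : Γ => 𝕜) 1) :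
    pairing c C hC a = ∑' i, c i * a i := rfl

theorem pairing_single [DecidableEq Γ] (c : Γ → 𝕜) (C : ℝ) (hC : ∀ i, ‖c i‖ ≤ C) (j : Γ) (t : 𝕜) :
    pairing c C hC (lp.single 1 j t) = c j * t := by
  rw [pairing_apply, tsum_eq_single j]
  · rw [lp.single_apply_self]
  · intro i hi
    rw [lp.single_apply_ne _ _ _ hi, mul_zero]

end functional

section general

variable {𝕜 : Type} [RCLike 𝕜] {Y : Type} [NormedAddCommGroup Y] [NormedSpace 𝕜 Y]
  (u : ℕ → Y) (f : ℕ → StrongDual 𝕜 Y)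

/-- The index set of the `ℓ¹` summand: pairs of a vector of the unit ball and a natural number. -/
abbrev Ind (Y : Type) [NormedAddCommGroup Y] : Type := {y : Y // ‖y‖ ≤ 1} × ℕ

/-- The `ℓ¹` summand. -/
abbrev Z (𝕜 : Type) [RCLike 𝕜] (Y : Type) [NormedAddCommGroup Y] : Type :=
  lp (fun _ : Ind Y => 𝕜) 1

/-- The remainder `y - ∑_{m < n} f m y • u m`. -/
noncomputable def rem (n : ℕ) (y : Y) : Y := y - ∑ m ∈ Finset.range n, f m y • u m

open Classical in
/-- The vectors of the M-basis. -/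
noncomputable def vec : ℕ ⊕ Ind Y → Y × Z 𝕜 Y
  | Sum.inl m => (u m, 0)
  | Sum.inr p => (rem u f p.2 p.1.1, lp.single 1 p (((p.2 : 𝕜) + 1)⁻¹))

/-- The coefficients of the correction. -/
noncomputable def coef (m : ℕ) (p : Ind Y) : 𝕜 :=
  if p.2 ≤ m then -((p.2 : 𝕜) + 1) * f m p.1.1 else 0

theorem coef_bound (m : ℕ) (p : Ind Y) : ‖coef f m p‖ ≤ ((m : ℝ) + 1) * ‖f m‖ := by
  unfold coef
  split_ifs with h
  · rw [norm_mul, norm_neg]
    have h1 : ‖((p.2 : 𝕜) + 1)‖ ≤ (m : ℝ) + 1 := by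
      have : ((p.2 : 𝕜) + 1) = ((p.2 + 1 : ℕ) : 𝕜) := by push_cast; ring
      rw [this, RCLike.norm_natCast]
      have : ((p.2 + 1 : ℕ) : ℝ) ≤ ((m + 1 : ℕ) : ℝ) := by exact_mod_cast Nat.succ_le_succ h
      push_cast at this ⊢
      exact this
    have h2 : ‖f m p.1.1‖ ≤ ‖f m‖ := by
      calc ‖f m p.1.1‖ ≤ ‖f m‖ * ‖p.1.1‖ := (f m).le_opNorm _
        _ ≤ ‖f m‖ * 1 := mul_le_mul_of_nonneg_left p.1.2 (norm_nonneg _)
        _ = _ := mul_one _
    exact mul_le_mul h1 h2 (norm_nonneg _) (by positivity)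
  · rw [norm_zero]; positivity

/-- The functionals of the M-basis. -/
noncomputable def fun' : ℕ ⊕ Ind Y → StrongDual 𝕜 (Y × Z 𝕜 Y)
  | Sum.inl m => (f m).comp (ContinuousLinearMap.fst 𝕜 Y (Z 𝕜 Y)) +
      (pairing (coef f m) _ (coef_bound f m)).comp (ContinuousLinearMap.snd 𝕜 Y (Z 𝕜 Y))
  | Sum.inr p => ((p.2 : 𝕜) + 1) • (lp.evalCLM 𝕜 (fun _ : Ind Y => 𝕜) 1 p).comp
      (ContinuousLinearMap.snd 𝕜 Y (Z 𝕜 Y))

theorem cast_ne (n : ℕ) : ((n : 𝕜) + 1) ≠ 0 := by
  exact_mod_cast Nat.succ_ne_zero n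

theorem f_rem (hbi : ∀ i j, f i (u j) = if i = j then 1 else 0) (m n : ℕ) (y : Y) :
    f m (rem u f n y) = if n ≤ m then f m y else 0 := by
  unfold rem
  rw [map_sub, map_sum]
  have h1 : ∑ k ∈ Finset.range n, f m (f k y • u k) = if m < n then f m y else 0 := by
    have h2 : ∀ k ∈ Finset.range n, f m (f k y • u k) = if m = k then f m y else 0 := by
      intro k _
      rw [map_smul, smul_eq_mul, hbi]
      split_ifs with h
      · rw [h, mul_one]
      · rw [mul_zero]
    rw [Finset.sum_congr rfl h2, Finset.sum_ite_eq]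
    simp
  rw [h1]
  by_cases h : n ≤ m
  · rw [if_neg (by omega), if_pos h, sub_zero]
  · rw [if_pos (by omega), if_neg h, sub_self]

/-- If `Y` has a biorthogonal sequence with total functionals then `Y ⊕ ℓ¹(Γ)` has an extended
M-basis. -/
theorem general (hbi : ∀ i j, f i (u j) = if i = j then 1 else 0)
    (htot : ∀ y : Y, (∀ n, f n y = 0) → y = 0) :
    IsExtendedMBasis 𝕜 (vec u f) (fun' f) := by
  classical
  have hsing : ∀ (p q : Ind Y) (t : 𝕜), (lp.single 1 p t : Z 𝕜 Y) q = if q = p then t else 0 := by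
    intro p q t
    by_cases h : q = p
    · subst h; rw [lp.single_apply_self, if_pos rfl]
    · rw [lp.single_apply_ne _ _ _ h, if_neg h]
  have happ_inl : ∀ m v, fun' f (Sum.inl m) v = f m v.1 +
      pairing (coef f m) _ (coef_bound f m) v.2 := fun _ _ => rfl
  have happ_inr : ∀ p v, fun' f (Sum.inr p) v = ((p.2 : 𝕜) + 1) * v.2 p := fun _ _ => rfl
  have hvec_inr : ∀ p : Ind Y, vec u f (Sum.inr p) =
      (rem u f p.2 p.1.1, (lp.single 1 p (((p.2 : 𝕜) + 1)⁻¹) : Z 𝕜 Y)) := by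
    intro p
    unfold vec
    congr! 2
  have hvec_inl : ∀ m : ℕ, vec u f (Sum.inl m) = (u m, (0 : Z 𝕜 Y)) := fun _ => rfl
  have key : ∀ i j, fun' f i (vec u f j) = if i = j then 1 else 0 := by
    intro i j
    rcases i with m | p <;> rcases j with m' | q
    · rw [happ_inl, hvec_inl]
      simp only [map_zero, add_zero, hbi, Sum.inl.injEq]
    · rw [happ_inl, hvec_inr]
      simp only [reduceCtorEq, if_false]
      rw [f_rem u f hbi, pairing_single]
      unfold coef
      split_ifs with h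
      · have := cast_ne (𝕜 := 𝕜) q.2
        field_simp
        ring
      · rw [zero_mul, add_zero]
    · rw [happ_inr, hvec_inl]
      simp
    · rw [happ_inr, hvec_inr]
      simp only [Sum.inr.injEq]
      rw [hsing]
      split_ifs with h
      · subst h
        exact mul_inv_cancel₀ (cast_ne _)
      · rw [mul_zero]
  refine ⟨fun i => ?_, fun i j hij => ?_, ?_, ?_⟩
  · rw [key, if_pos rfl]
  · rw [key, if_neg hij]
  · -- density
    set M : Submodule 𝕜 (Y × Z 𝕜 Y) :=
      (Submodule.span 𝕜 (Set.range (vec u f))).topologicalClosure with hM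
    have hMc : IsClosed (M : Set (Y × Z 𝕜 Y)) := Submodule.isClosed_topologicalClosure _
    have hmem : ∀ i, vec u f i ∈ M := fun i =>
      Submodule.le_topologicalClosure _ (Submodule.subset_span ⟨i, rfl⟩)
    have hball : ∀ y : {y : Y // ‖y‖ ≤ 1}, ((y.1, 0) : Y × Z 𝕜 Y) ∈ M := by
      intro y
      have h1 : ∀ n : ℕ, ((y.1, lp.single 1 (y, n) (((n : 𝕜) + 1)⁻¹)) : Y × Z 𝕜 Y) ∈ M := by
        intro n
        have h2 : ((y.1, lp.single 1 (y, n) (((n : 𝕜) + 1)⁻¹)) : Y × Z 𝕜 Y) =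
            vec u f (Sum.inr (y, n)) + ∑ m ∈ Finset.range n, f m y.1 • vec u f (Sum.inl m) := by
          rw [hvec_inr]
          simp only [hvec_inl]
          refine Prod.ext ?_ ?_
          · rw [Prod.fst_add, Prod.fst_sum]
            simp only [Prod.smul_fst]
            unfold rem
            rw [sub_add_cancel]
          · rw [Prod.snd_add, Prod.snd_sum]
            simp
        rw [h2]
        exact M.add_mem (hmem _) (M.sum_mem fun m _ => M.smul_mem _ (hmem _))
      have h3 : Tendsto (fun n : ℕ =>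
          ((y.1, lp.single 1 (y, n) (((n : 𝕜) + 1)⁻¹)) : Y × Z 𝕜 Y)) atTop (𝓝 (y.1, 0)) := by
        refine tendsto_const_nhds.prodMk_nhds ?_
        rw [tendsto_zero_iff_norm_tendsto_zero]
        have h4 : ∀ n : ℕ, ‖(lp.single 1 (y, n) (((n : 𝕜) + 1)⁻¹) : Z 𝕜 Y)‖ = 1 / ((n : ℝ) + 1) := by
          intro n
          rw [lp.norm_single (by simp), norm_inv]
          have : ((n : 𝕜) + 1) = ((n + 1 : ℕ) : 𝕜) := by push_cast; ring
          rw [this, RCLike.norm_natCast]
          push_cast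
          rw [one_div]
        simp only [h4]
        exact tendsto_one_div_add_atTop_nhds_zero_nat
      exact hMc.mem_of_tendsto h3 (Eventually.of_forall h1)
    have hY : ∀ y : Y, ((y, 0) : Y × Z 𝕜 Y) ∈ M := by
      intro y
      rcases eq_or_ne y 0 with rfl | hy
      · exact M.zero_mem
      have hyn : ‖y‖ ≠ 0 := norm_ne_zero_iff.2 hy
      have h1 : ‖((‖y‖ : 𝕜)⁻¹) • y‖ ≤ 1 := by
        rw [norm_smul, norm_inv, RCLike.norm_ofReal, abs_of_nonneg (norm_nonneg y),
          inv_mul_cancel₀ hyn]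
      have h2 := M.smul_mem (‖y‖ : 𝕜) (hball ⟨_, h1⟩)
      have h3 : (‖y‖ : 𝕜) • ((((‖y‖ : 𝕜)⁻¹) • y, 0) : Y × Z 𝕜 Y) = (y, 0) := by
        rw [Prod.smul_mk, smul_zero, smul_smul, mul_inv_cancel₀, one_smul]
        exact_mod_cast hyn
      rwa [h3] at h2
    have hsingM : ∀ (p : Ind Y) (t : 𝕜), ((0, lp.single 1 p t) : Y × Z 𝕜 Y) ∈ M := by
      intro p t
      have h1 := M.smul_mem (t * ((p.2 : 𝕜) + 1))
        (M.sub_mem (hmem (Sum.inr p)) (hY (rem u f p.2 p.1.1)))
      have h2 : (t * ((p.2 : 𝕜) + 1)) • (vec u f (Sum.inr p) - (rem u f p.2 p.1.1, (0 : Z 𝕜 Y)))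
          = (0, lp.single 1 p t) := by
        rw [hvec_inr, Prod.mk_sub_mk, sub_self, sub_zero, Prod.smul_mk, smul_zero,
          ← lp.single_smul, smul_eq_mul, mul_assoc, mul_inv_cancel₀ (cast_ne _), mul_one]
      rwa [h2] at h1
    have hZ : ∀ z : Z 𝕜 Y, ((0, z) : Y × Z 𝕜 Y) ∈ M := by
      intro z
      have h1 : HasSum (fun p => (lp.single 1 p (z p) : Z 𝕜 Y)) z :=
        lp.hasSum_single (by simp) z
      have h2 : HasSum (fun p => ((0, (lp.single 1 p (z p) : Z 𝕜 Y)) : Y × Z 𝕜 Y)) (0, z) := by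
        have h3 := h1.mapL (ContinuousLinearMap.inr 𝕜 Y (Z 𝕜 Y))
        exact h3
      refine hMc.mem_of_tendsto h2 (Eventually.of_forall fun s => ?_)
      exact M.sum_mem fun p _ => hsingM p _
    rw [eq_top_iff]
    rintro ⟨y, z⟩ _
    have h1 := M.add_mem (hY y) (hZ z)
    rwa [Prod.mk_add_mk, add_zero, zero_add] at h1
  · -- totality
    rintro ⟨y, z⟩ h
    have hz : z = 0 := by
      ext p
      have h1 := h (Sum.inr p)
      rw [happ_inr] at h1
      exact (mul_eq_zero.1 h1).resolve_left (cast_ne _)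
    subst hz
    have hy : y = 0 := by
      refine htot y fun n => ?_
      have h1 := h (Sum.inl n)
      rw [happ_inl, map_zero, add_zero] at h1
      exact h1
    rw [hy]
    rfl

end general

/-- The space `E` has an extended M-basis. -/
def HasExtendedMBasis (𝕜 : Type) [RCLike 𝕜] (E : Type) [NormedAddCommGroup E]
    [NormedSpace 𝕜 E] : Prop :=
  ∃ (I : Type) (x : I → E) (f : I → StrongDual 𝕜 E), IsExtendedMBasis 𝕜 x f

/-- The space `ℓ^∞` of bounded scalar sequences with the supremum norm. -/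
def LInf (𝕜 : Type) [RCLike 𝕜] : Type := lp (fun _ : ℕ => 𝕜) ∞

noncomputable instance (𝕜 : Type) [RCLike 𝕜] : NormedAddCommGroup (LInf 𝕜) :=
  (lp.normedAddCommGroup : NormedAddCommGroup (lp (fun _ : ℕ => 𝕜) ∞))

noncomputable instance (𝕜 : Type) [RCLike 𝕜] : NormedSpace 𝕜 (LInf 𝕜) :=
  (lp.instNormedSpace : NormedSpace 𝕜 (lp (fun _ : ℕ => 𝕜) ∞))

/-- The space `E` contains a complemented isometric copy of `ℓ^∞`. -/
def ContainsComplementedLInf (𝕜 : Type) [RCLike 𝕜] (E : Type) [NormedAddCommGroup E]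
    [NormedSpace 𝕜 E] : Prop :=
  ∃ (J : LInf 𝕜 →L[𝕜] E) (P : E →L[𝕜] LInf 𝕜), (∀ y, ‖J y‖ = ‖y‖) ∧ ∀ y, P (J y) = y

/-- Over the real and over the complex scalars there is a Banach space that has an extended
M-basis and contains a complemented isometric copy of `ℓ^∞`. -/
theorem result (𝕜 : Type) [RCLike 𝕜] :
    ∃ (E : Type) (_ : NormedAddCommGroup E) (_ : NormedSpace 𝕜 E),
      CompleteSpace E ∧ HasExtendedMBasis 𝕜 E ∧ ContainsComplementedLInf 𝕜 E := by
  classical
  let Y : Type := lp (fun _ : ℕ => 𝕜) ∞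
  let u : ℕ → Y := fun m => lp.single ∞ m 1
  let f : ℕ → StrongDual 𝕜 Y := fun m => lp.evalCLM 𝕜 (fun _ : ℕ => 𝕜) ∞ m
  have hf : ∀ m (y : Y), f m y = y m := fun _ _ => rfl
  refine ⟨Y × Z 𝕜 Y, inferInstance, inferInstance, inferInstance,
    ⟨ℕ ⊕ Ind Y, vec u f, fun' f, general u f ?_ ?_⟩,
    ContinuousLinearMap.inl 𝕜 Y (Z 𝕜 Y), ContinuousLinearMap.fst 𝕜 Y (Z 𝕜 Y), ?_, ?_⟩
  · intro i j
    rw [hf]
    by_cases h : i = j
    · subst h
      rw [if_pos rfl]
      exact lp.single_apply_self _ _ _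
    · rw [if_neg h]
      exact lp.single_apply_ne _ _ _ h
  · intro y hy
    ext n
    exact hy n
  · intro y
    show ‖((y, 0) : Y × Z 𝕜 Y)‖ = ‖y‖
    rw [Prod.norm_def, norm_zero]
    exact max_eq_left (norm_nonneg _)
  · intro y
    rfl

end Pool.Agent.Results.MP_810de6_an.LInftyMBasis
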